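import Pool.Agent.H15.G.R_seed8.TH2.NU.Multi
import Pool.Agent.H15.G.R_seed8.TH885.NU.Win
import Pool.Agent.H15.G.R_seed8.TH941.NU.Mid

/-! The critical degrees for clusters of the three kinds. -/

namespace Pool.Agent.TH2.NU

open Finset Pool.Agent.TH176.Nag Pool.Agent.TH603.Sur Pool.Agent.TH763.DB Module Pool.Agent.TH641.UM

/-- window `Emp`, multiset form -/
theorem EmpW {N b d p q r : ℕ} (h : p + q + r = N) (hN : 36 ≤ N) (hb : N ≤ b)
    (hwin : √(4 * (N : ℝ)) * (2 * d + 3) + 2 * √(4 * (N : ℝ)) / 3 + 9 / 2 <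
      4 * ((N : ℝ) * ((b + 1 : ℕ) : ℝ) - p + r) + 2 * N) :
    EmpM (p • {b} + (q • {b + 1} + r • {b + 2})) (TZ d) := by
  refine (EmpM_iff (w := Sum.elim (fun _ : Fin p => b) (Sum.elim (fun _ : Fin q => b + 1)
    (fun _ : Fin r => b + 2))) (by rw [ms_sum, ms_sum, ms_fin, ms_fin, ms_fin]) _).2 ?_
  refine Pool.Agent.TH885.NU.Emp_nu (N := N) (b := b) ?_ hN ?_ hb ?_
  · rw [Fintype.card_sum, Fintype.card_sum, Fintype.card_fin, Fintype.card_fin, Fintype.card_fin]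
    omega
  · rintro (i | i | i)
    · exact le_refl _
    · exact Nat.le_succ _
    · simp only [Sum.elim_inr]; omega
  · rw [Fintype.sum_sum_type, Fintype.sum_sum_type]
    simp only [Sum.elim_inl, Sum.elim_inr, sum_const, card_univ, Fintype.card_fin, smul_eq_mul]
    have e : (N : ℝ) = p + q + r := by rw [← h]; push_cast; ring
    have e2 : ((p * b + (q * (b + 1) + r * (b + 2)) : ℕ) : ℝ) = (N : ℝ) * ((b + 1 : ℕ) : ℝ) - p + r := by
      rw [e]
      push_cast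
      ring
    rw [e2]
    exact hwin

/-- window `Sur`, multiset form -/
theorem SurW {N b d p q : ℕ} (h : p + q = N) (hN : 36 ≤ N)
    (hwin : 4 * ((N : ℝ) * ((b + 1 : ℕ) : ℝ) - p) + 2 * N + 2 * √(4 * (N : ℝ)) / 3 + 1 / 2 <
      √(4 * (N : ℝ)) * (2 * d + 3)) :
    SurM (p • {b} + q • {b + 1}) (TZ d) := by
  refine (SurM_iff (w := Sum.elim (fun _ : Fin p => b) (fun _ : Fin q => b + 1))
    (by rw [ms_sum, ms_fin, ms_fin]) _).2 ?_
  refine Pool.Agent.TH885.NU.Sur_nu (N := N) (b := b) ?_ hN ?_ ?_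
  · rw [Fintype.card_sum, Fintype.card_fin, Fintype.card_fin]
    omega
  · rintro (i | i)
    · exact ⟨le_refl _, Nat.le_succ _⟩
    · exact ⟨Nat.le_succ _, le_refl _⟩
  · rw [Fintype.sum_sum_type]
    simp only [Sum.elim_inl, Sum.elim_inr, sum_const, card_univ, Fintype.card_fin, smul_eq_mul]
    have e : (N : ℝ) = p + q := by rw [← h]; push_cast; ring
    have e2 : ((p * b + q * (b + 1) : ℕ) : ℝ) = (N : ℝ) * ((b + 1 : ℕ) : ℝ) - p := by
      rw [e]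
      push_cast
      ring
    rw [e2]
    exact hwin

theorem TF_pos (d : ℕ) : ∀ u ∈ TF d, 0 ≤ u.1 ∧ 0 ≤ u.2 := by
  intro u hu
  have h : u ∈ TZ d := by rw [← coe_TF]; exact mem_coe.2 hu
  exact ⟨h.1, h.2.1⟩

/-- the sign theorem for a multiset -/
def Sgn (M : Multiset ℕ) (d : ℕ) : Prop :=
  ((d + 2).choose 2 ≤ condM M → EmpM M (TZ d)) ∧ (condM M ≤ (d + 2).choose 2 → SurM M (TZ d))

theorem Sgn_dbl {a b : ℕ} (ha : 0 < a) {M : Multiset ℕ} {d : ℕ}
    (h1 : SurM (a • {b} + M) (TZ d)) (h2 : EmpM (a • {b + 1} + M) (TZ d)) : Sgn (a • q4 b + M) d := by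
  rw [← coe_TF] at h1 h2
  have h := dblM ha (TF_pos d) h1 h2
  rw [card_TF, coe_TF] at h
  exact h

theorem exM' {a b : ℕ} (hb : 1 ≤ b) {M : Multiset ℕ} {d : ℕ}
    (h : EmpM (a • {b} + M) (TZ d)) : EmpM (a • r4 b + M) (TZ d) := by
  rw [← coe_TF] at h ⊢
  exact exM hb h

/-- case A: clusters `q4 b` and `r4 (b + 1)` -/
theorem caseA {N b d x0 x1 : ℕ} (hN : 36 ≤ N) (hb : N ≤ b) (hx : x0 + x1 = N) (h0 : 0 < x0)
    (hE : √(4 * (N : ℝ)) * (2 * d + 3) + 2 * √(4 * (N : ℝ)) / 3 + 9 / 2 <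
      4 * ((N : ℝ) * ((b + 1 : ℕ) : ℝ)) + 2 * N)
    (hS : 4 * ((N : ℝ) * ((b + 1 : ℕ) : ℝ) - x0) + 2 * N + 2 * √(4 * (N : ℝ)) / 3 + 1 / 2 <
      √(4 * (N : ℝ)) * (2 * d + 3)) :
    Sgn (x0 • q4 b + x1 • r4 (b + 1)) d := by
  refine Sgn_dbl h0 ?_ ?_
  · have h1 := SurW hx hN hS
    rw [add_comm] at h1 ⊢
    exact exMS (by omega) h1
  · have h1 := EmpW (N := N) (b := b) (d := d) (p := 0) (q := N) (r := 0) (by omega) hN hb (by
      push_cast at hE ⊢
      linarith)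
    rw [zero_smul, zero_smul, zero_add, add_zero] at h1
    rw [add_comm]
    refine exM' (by omega) ?_
    have e : x1 • ({b + 1} : Multiset ℕ) + x0 • {b + 1} = N • {b + 1} := by
      rw [← add_smul, ← hx, add_comm]
    rw [e]
    exact h1

/-- case B: clusters `r4 (b + 1)` and `q4 (b + 1)` -/
theorem caseB {N b d x1 x2 : ℕ} (hN : 36 ≤ N) (hb : N ≤ b) (hx : x1 + x2 = N) (h0 : 0 < x2)
    (hE : √(4 * (N : ℝ)) * (2 * d + 3) + 2 * √(4 * (N : ℝ)) / 3 + 9 / 2 <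
      4 * ((N : ℝ) * ((b + 1 : ℕ) : ℝ) + x2) + 2 * N)
    (hS : 4 * ((N : ℝ) * ((b + 1 : ℕ) : ℝ)) + 2 * N + 2 * √(4 * (N : ℝ)) / 3 + 1 / 2 <
      √(4 * (N : ℝ)) * (2 * d + 3)) :
    Sgn (x2 • q4 (b + 1) + x1 • r4 (b + 1)) d := by
  refine Sgn_dbl h0 ?_ ?_
  · have h1 := SurW (N := N) (b := b) (d := d) (p := 0) (q := N) (by omega) hN (by
      push_cast at hS ⊢
      linarith)
    rw [zero_smul, zero_add] at h1
    rw [add_comm]
    refine exMS (by omega) ?_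
    have e : x1 • ({b + 1} : Multiset ℕ) + x2 • {b + 1} = N • {b + 1} := by
      rw [← add_smul, ← hx]
    rw [e]
    exact h1
  · have h1 := EmpW (N := N) (b := b) (d := d) (p := 0) (q := x1) (r := x2) (by omega) hN hb (by
      push_cast at hE ⊢
      linarith)
    rw [zero_smul, zero_add] at h1
    rw [add_comm (x2 • ({b + 1 + 1} : Multiset ℕ))]
    exact exM' (by omega) h1

/-- the inner step of case C -/
theorem inner {N b d x0 x1 x2 p : ℕ} (hN : 36 ≤ N) (hb : N ≤ b) (hx : x0 + x1 + x2 = N) (h2 : 0 < x2)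
    (hp : p ≤ x0)
    (hS : 4 * ((N : ℝ) * ((b + 1 : ℕ) : ℝ) - p) + 2 * N + 2 * √(4 * (N : ℝ)) / 3 + 1 / 2 <
      √(4 * (N : ℝ)) * (2 * d + 3))
    (hE : √(4 * (N : ℝ)) * (2 * d + 3) + 2 * √(4 * (N : ℝ)) / 3 + 9 / 2 <
      4 * ((N : ℝ) * ((b + 1 : ℕ) : ℝ) - p + x2) + 2 * N) :
    Sgn (x2 • q4 (b + 1) + (p • {b} + ((x0 - p) • {b + 1} + x1 • r4 (b + 1)))) d := by
  refine Sgn_dbl h2 ?_ ?_
  · have h1 := SurW (N := N) (b := b) (d := d) (p := p) (q := N - p) (by omega) hN hS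
    have e : x2 • ({b + 1} : Multiset ℕ) + (p • {b} + ((x0 - p) • {b + 1} + x1 • r4 (b + 1))) =
        x1 • r4 (b + 1) + (x2 • ({b + 1} : Multiset ℕ) + (p • {b} + (x0 - p) • {b + 1})) := by
      abel
    rw [e]
    refine exMS (by omega) ?_
    have e2 : x1 • ({b + 1} : Multiset ℕ) + (x2 • ({b + 1} : Multiset ℕ) + (p • {b} + (x0 - p) • {b + 1})) =
        p • {b} + (N - p) • {b + 1} := by
      have e3 : N - p = x1 + x2 + (x0 - p) := by omega
      rw [e3, add_smul, add_smul]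
      abel
    rw [e2]
    exact h1
  · have h1 := EmpW (N := N) (b := b) (d := d) (p := p) (q := x0 - p + x1) (r := x2) (by omega) hN hb hE
    have e : x2 • ({b + 1 + 1} : Multiset ℕ) + (p • {b} + ((x0 - p) • {b + 1} + x1 • r4 (b + 1))) =
        x1 • r4 (b + 1) + (x2 • ({b + 1 + 1} : Multiset ℕ) + (p • {b} + (x0 - p) • {b + 1})) := by
      abel
    rw [e]
    refine exM' (by omega) ?_
    have e2 : x1 • ({b + 1} : Multiset ℕ) + (x2 • ({b + 1 + 1} : Multiset ℕ) +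
        (p • {b} + (x0 - p) • {b + 1})) = p • {b} + ((x0 - p + x1) • {b + 1} + x2 • {b + 2}) := by
      rw [add_smul]
      abel
    rw [e2]
    exact h1

theorem two_choose' (a : ℕ) : 2 * (a + 2).choose 2 = (a + 1) * (a + 2) := two_choose (a + 1)

/-- case C -/
theorem caseC {N b d x0 x1 x2 : ℕ} (hN : 36 ≤ N) (hb : 4 * N ≤ b + 1) (hx : x0 + x1 + x2 = N)
    (h0 : √(4 * (N : ℝ)) / 3 + 5 ≤ x0) (h2 : √(4 * (N : ℝ)) / 3 + 5 ≤ x2)
    (hcrit : |√(4 * (N : ℝ)) * (2 * d + 3) - (4 * N * ((b + 1 : ℕ) : ℝ) + 2 * N +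
      2 * ((x2 : ℝ) - x0))| ≤ 2 * √(4 * (N : ℝ)) / 3 + 9 / 4) :
    Sgn (x0 • q4 b + (x1 • r4 (b + 1) + x2 • q4 (b + 1))) d := by
  have hs0 := Real.sqrt_nonneg (4 * (N : ℝ))
  have h0' : 0 < x0 := by
    have : (0 : ℝ) < x0 := by linarith
    exact_mod_cast this
  have h2' : 0 < x2 := by
    have : (0 : ℝ) < x2 := by linarith
    exact_mod_cast this
  obtain ⟨p, hp, c1, c2, c3, c4⟩ := Pool.Agent.TH941.NU.mid hN hb (by omega) h0 h2 hcrit
  have i1 := inner (b := b) (d := d) (p := p) hN (by omega) hx h2' (by omega) c3 (by linarith)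
  have i2 := inner (b := b) (d := d) (p := p + 1) hN (by omega) hx h2' hp (by push_cast at c3 ⊢; linarith) (by
    push_cast at c4 ⊢; linarith)
  -- the conditions
  have hcond : ∀ p, p ≤ x0 → 2 * condM (x2 • q4 (b + 1) + (p • {b} + ((x0 - p) • {b + 1} +
      x1 • r4 (b + 1)))) + 2 * (p * (b + 1)) = 2 * ((b + 1 + 1) / 2 * x2) + N * ((b + 1) * (b + 1 + 1)) := by
    intro p hp
    obtain ⟨t, rfl⟩ := Nat.exists_eq_add_of_le hp
    rw [condM_add, condM_add, condM_add, condM_smul, condM_smul, condM_smul, condM_smul, condM_q4,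
      condM_r4 (by omega), condM_single, condM_single, ← hx, Nat.add_sub_cancel_left]
    have e1 := two_choose b
    have e2 := two_choose (b + 1)
    obtain ⟨h, hh⟩ : ∃ h, h = (b + 1 + 1) / 2 := ⟨_, rfl⟩
    rw [← hh]
    have e3 : 2 * (x2 * ((b + 1 + 1).choose 2 + h) + (p * (b + 1).choose 2 + (t * (b + 1 + 1).choose 2 +
        x1 * (b + 1 + 1).choose 2))) = x2 * (2 * (b + 1 + 1).choose 2) + 2 * (h * x2) +
        p * (2 * (b + 1).choose 2) + t * (2 * (b + 1 + 1).choose 2) + x1 * (2 * (b + 1 + 1).choose 2) := by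
      ring
    rw [e3, e1, e2]
    ring
  have hk1 := hcond p (by omega)
  have hk2 := hcond (p + 1) hp
  have hd := two_choose' d
  have s1 := i1.1 (by omega)
  have s2 := i2.2 (by omega)
  refine Sgn_dbl h0' ?_ ?_
  · have e1 : x2 • q4 (b + 1) + ((p + 1) • {b} + ((x0 - (p + 1)) • {b + 1} + x1 • r4 (b + 1))) =
        (x0 - (p + 1)) • {b + 1} + (x2 • q4 (b + 1) + (p + 1) • {b} + x1 • r4 (b + 1)) := by abel
    rw [e1] at s2
    have s3 := s2.lower (Nat.le_succ b)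
    have e2 : (x0 - (p + 1)) • ({b} : Multiset ℕ) + (x2 • q4 (b + 1) + (p + 1) • {b} + x1 • r4 (b + 1)) =
        x0 • {b} + (x1 • r4 (b + 1) + x2 • q4 (b + 1)) := by
      have e3 : x0 • ({b} : Multiset ℕ) = (x0 - (p + 1)) • {b} + (p + 1) • {b} := by
        rw [← add_smul, Nat.sub_add_cancel hp]
      rw [e3]
      abel
    rw [e2] at s3
    exact s3
  · have e1 : x2 • q4 (b + 1) + (p • {b} + ((x0 - p) • {b + 1} + x1 • r4 (b + 1))) =
        p • {b} + (x2 • q4 (b + 1) + (x0 - p) • {b + 1} + x1 • r4 (b + 1)) := by abel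
    rw [e1] at s1
    have s3 := Pool.Agent.TH2.NU.EmpM.raise (Nat.le_succ b) s1
    have e2 : p • ({b + 1} : Multiset ℕ) + (x2 • q4 (b + 1) + (x0 - p) • {b + 1} + x1 • r4 (b + 1)) =
        x0 • {b + 1} + (x1 • r4 (b + 1) + x2 • q4 (b + 1)) := by
      have e3 : x0 • ({b + 1} : Multiset ℕ) = (x0 - p) • {b + 1} + p • {b + 1} := by
        rw [← add_smul, Nat.sub_add_cancel (by omega)]
      rw [e3]
      abel
    rw [e2] at s3
    exact s3

end Pool.Agent.TH2.NU
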