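import Pool.Agent.H15.G.R_seed8.TH2.NU.Crit

/-! The critical degrees at `4 N` points of multiplicities `m` and `m + 1`. -/

namespace Pool.Agent.TH2.NU

open Finset Pool.Agent.TH176.Nag Pool.Agent.TH603.Sur Pool.Agent.TH763.DB Module Pool.Agent.TH641.UM

theorem sum_qv_val (b : ℕ) : ∑ p : Fin 2 × Fin 2, qv b p = 2 * b := by
  rw [Fintype.sum_prod_type]
  simp only [Fin.sum_univ_two, qv, Fin.val_zero, Fin.val_one, add_zero]
  omega

theorem sum_rv_val (b : ℕ) : ∑ p : Fin 2 × Fin 2, rv (b + 1) p = 2 * b + 1 := by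
  rw [Fintype.sum_prod_type]
  simp only [Fin.sum_univ_two, rv, Fin.val_zero, Fin.val_one, mul_zero, mul_one, add_zero, zero_add]
  omega

theorem sum_prod_val {a : ℕ} (v : Fin 2 × Fin 2 → ℕ) :
    ∑ p : Fin a × (Fin 2 × Fin 2), v p.2 = a * ∑ p, v p := by
  rw [Fintype.sum_prod_type]
  simp

/-- the multiset of a vector with values `m`, `m + 1` -/
theorem ms_V {N m b x0 x1 x2 : ℕ} {w : Fin (4 * N) → ℕ} (hw : ∀ i, w i = m ∨ w i = m + 1)
    (hb : b = 2 * m ∨ b = 2 * m + 1) (hx : x0 + x1 + x2 = N)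
    (hW : ∑ i, w i + x0 = N * (2 * b + 1) + x2) :
    ms w = x0 • q4 b + (x1 • r4 (b + 1) + x2 • q4 (b + 1)) := by
  have e : ms (Sum.elim (fun p : Fin x0 × (Fin 2 × Fin 2) => qv b p.2)
      (Sum.elim (fun p : Fin x1 × (Fin 2 × Fin 2) => rv (b + 1) p.2)
        (fun p : Fin x2 × (Fin 2 × Fin 2) => qv (b + 1) p.2))) =
      x0 • q4 b + (x1 • r4 (b + 1) + x2 • q4 (b + 1)) := by
    rw [ms_sum, ms_sum, ms_prod, ms_prod, ms_prod]
    rfl
  rw [← e]
  refine ms_eq hw ?_ ?_ ?_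
  · rintro (⟨-, ⟨a, c⟩⟩ | ⟨-, ⟨a, c⟩⟩ | ⟨-, ⟨a, c⟩⟩)
    · simp only [Sum.elim_inl, qv]
      have := a.2
      omega
    · simp only [Sum.elim_inl, Sum.elim_inr, rv]
      have := a.2
      have := c.2
      omega
    · simp only [Sum.elim_inr, qv]
      have := a.2
      omega
  · rw [Fintype.card_sum, Fintype.card_sum]
    simp only [Fintype.card_prod, Fintype.card_fin]
    omega
  · rw [Fintype.sum_sum_type, Fintype.sum_sum_type]
    simp only [Sum.elim_inl, Sum.elim_inr]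
    rw [sum_prod_val, sum_prod_val, sum_prod_val, sum_qv_val, sum_rv_val, sum_qv_val]
    have h1 : x0 * (2 * b) + (x1 * (2 * b + 1) + x2 * (2 * (b + 1))) + x0 = N * (2 * b + 1) + x2 := by
      rw [← hx]
      ring
    omega

theorem Sgn_of_ms {ι : Type} [Fintype ι] {w : ι → ℕ} {M : Multiset ℕ} {d : ℕ} (h : ms w = M)
    (hs : Sgn M d) : ((d + 2).choose 2 ≤ cond w → Emp w (TZ d)) ∧
      (cond w ≤ (d + 2).choose 2 → Sur w (TZ d)) := by
  rw [cond_condM, h]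
  exact ⟨fun h1 => (EmpM_iff h _).1 (hs.1 h1), fun h1 => (SurM_iff h _).1 (hs.2 h1)⟩

/-- the three cases together -/
theorem sgn_all {N b d : ℕ} {δ : ℤ} (hN : 36 ≤ N) (hb : 4 * N ≤ b + 1) (hδ : |δ| ≤ N)
    (hcrit : |√(4 * (N : ℝ)) * (2 * d + 3) - (4 * N * ((b + 1 : ℕ) : ℝ) + 2 * N +
      2 * (δ : ℝ))| ≤ 2 * √(4 * (N : ℝ)) / 3 + 9 / 4) :
    ∃ x0 x1 x2 : ℕ, x0 + x1 + x2 = N ∧ (x2 : ℤ) - x0 = δ ∧
      Sgn (x0 • q4 b + (x1 • r4 (b + 1) + x2 • q4 (b + 1))) d := by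
  have hs0 := Real.sqrt_nonneg (4 * (N : ℝ))
  have hNR : (36 : ℝ) ≤ N := by exact_mod_cast hN
  obtain ⟨s, hs⟩ : ∃ s, s = √(4 * (N : ℝ)) := ⟨_, rfl⟩
  have hss : s * s = 4 * N := by rw [hs]; exact Real.mul_self_sqrt (by linarith)
  have hs12 : 12 ≤ s := by rw [hs]; exact Real.le_sqrt_of_sq_le (by norm_num; linarith)
  have hcrit' := abs_le.1 hcrit
  rw [← hs] at hcrit'
  rw [abs_le] at hδ
  rcases le_or_gt ((δ : ℝ)) (-(2 * s / 3 + 4)) with h1 | h1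
  · -- case A
    obtain ⟨x0, hx0⟩ : ∃ x0 : ℕ, (x0 : ℤ) = -δ := ⟨(-δ).toNat, by
      have : (δ : ℝ) ≤ 0 := by linarith
      have : δ ≤ 0 := by exact_mod_cast this
      omega⟩
    have hxR : (x0 : ℝ) = -δ := by exact_mod_cast hx0
    refine ⟨x0, N - x0, 0, by omega, by omega, ?_⟩
    rw [zero_smul, add_zero]
    have h0 : 0 < x0 := by
      have : (0 : ℝ) < x0 := by rw [hxR]; linarith
      exact_mod_cast this
    refine caseA hN (by omega) (by omega) h0 ?_ ?_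
    · rw [← hs]
      push_cast at hcrit' ⊢
      linarith [hcrit'.2]
    · rw [← hs]
      push_cast at hcrit' ⊢
      linarith [hcrit'.1]
  rcases le_or_gt (2 * s / 3 + 4) ((δ : ℝ)) with h2 | h2
  · -- case B
    obtain ⟨x2, hx2⟩ : ∃ x2 : ℕ, (x2 : ℤ) = δ := ⟨δ.toNat, by
      have : 0 ≤ (δ : ℝ) := by linarith
      have : 0 ≤ δ := by exact_mod_cast this
      omega⟩
    have hxR : (x2 : ℝ) = δ := by exact_mod_cast hx2
    refine ⟨0, N - x2, x2, by omega, by omega, ?_⟩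
    rw [zero_smul, zero_add, add_comm]
    have h0 : 0 < x2 := by
      have : (0 : ℝ) < x2 := by rw [hxR]; linarith
      exact_mod_cast this
    refine caseB hN (by omega) (by omega) h0 ?_ ?_
    · rw [← hs]
      push_cast at hcrit' ⊢
      linarith [hcrit'.2]
    · rw [← hs]
      push_cast at hcrit' ⊢
      linarith [hcrit'.1]
  · -- case C
    obtain ⟨k, hk⟩ : ∃ k : ℕ, k = ⌈s / 3 + 5⌉₊ := ⟨_, rfl⟩
    have hk1 : s / 3 + 5 ≤ k := by rw [hk]; exact Nat.le_ceil _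
    have hk2 : (k : ℝ) < s / 3 + 5 + 1 := by rw [hk]; exact Nat.ceil_lt_add_one (by positivity)
    have hroom : 4 * s / 3 + 16 ≤ N := by nlinarith
    obtain ⟨x0, hx0⟩ : ∃ x0 : ℕ, (x0 : ℤ) = k + max (-δ) 0 := ⟨k + (-δ).toNat, by omega⟩
    obtain ⟨x2, hx2⟩ : ∃ x2 : ℕ, (x2 : ℤ) = k + max δ 0 := ⟨k + δ.toNat, by omega⟩
    have hsum : x0 + x2 ≤ N := by
      rcases le_total 0 δ with h | h
      · have e1 : (x0 : ℤ) + x2 = 2 * k + δ := by omega
        have e2 : (x0 : ℝ) + x2 = 2 * k + δ := by exact_mod_cast e1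
        have : (x0 : ℝ) + x2 ≤ N := by rw [e2]; linarith
        exact_mod_cast this
      · have e1 : (x0 : ℤ) + x2 = 2 * k + -δ := by omega
        have e2 : (x0 : ℝ) + x2 = 2 * k + -δ := by exact_mod_cast e1
        have : (x0 : ℝ) + x2 ≤ N := by rw [e2]; linarith
        exact_mod_cast this
    refine ⟨x0, N - (x0 + x2), x2, by omega, by omega, ?_⟩
    have hx0R : (k : ℝ) ≤ x0 := by
      have : (k : ℤ) ≤ x0 := by omega
      exact_mod_cast this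
    have hx2R : (k : ℝ) ≤ x2 := by
      have : (k : ℤ) ≤ x2 := by omega
      exact_mod_cast this
    have hdiff : (x2 : ℝ) - x0 = δ := by
      have : (x2 : ℤ) - x0 = δ := by omega
      exact_mod_cast this
    refine caseC hN hb (by omega) ?_ ?_ ?_
    · rw [← hs]; linarith
    · rw [← hs]; linarith
    · rw [hdiff]; exact hcrit

/-- **the critical degrees** -/
theorem crit4 {N m : ℕ} (hN : 36 ≤ N) {w : Fin (4 * N) → ℕ} (hw : ∀ i, w i = m ∨ w i = m + 1)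
    (hm : 4 * (N : ℝ) - 6 * √(4 * (N : ℝ)) + 10 ≤ m) {d : ℕ}
    (hcrit : |√(4 * (N : ℝ)) * (2 * d + 3) - (4 * N + 2 * ((∑ i, w i : ℕ) : ℝ))| ≤
      2 * √(4 * (N : ℝ)) / 3 + 9 / 4) :
    ((d + 2).choose 2 ≤ cond w → Emp w (TZ d)) ∧ (cond w ≤ (d + 2).choose 2 → Sur w (TZ d)) := by
  have hNR : (36 : ℝ) ≤ N := by exact_mod_cast hN
  obtain ⟨s, hs⟩ : ∃ s, s = √(4 * (N : ℝ)) := ⟨_, rfl⟩
  have hss : s * s = 4 * N := by rw [hs]; exact Real.mul_self_sqrt (by linarith)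
  have hs12 : 12 ≤ s := by rw [hs]; exact Real.le_sqrt_of_sq_le (by norm_num; linarith)
  have h2m : 4 * N ≤ 2 * m := by
    have : 4 * (N : ℝ) ≤ 2 * m := by
      rw [← hs] at hm
      nlinarith
    exact_mod_cast this
  -- the sum
  have hlow : 4 * N * m ≤ ∑ i, w i := by
    have h1 : ∑ _i : Fin (4 * N), m ≤ ∑ i, w i := sum_le_sum fun i _ => by
      rcases hw i with h | h <;> omega
    simpa using h1
  have hup : ∑ i, w i ≤ 4 * N * m + 4 * N := by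
    have h1 : ∑ i, w i ≤ ∑ _i : Fin (4 * N), (m + 1) := sum_le_sum fun i _ => by
      rcases hw i with h | h <;> omega
    simp only [sum_const, card_univ, Fintype.card_fin, smul_eq_mul] at h1
    linarith
  obtain ⟨b, hb, hb1, hb2⟩ : ∃ b : ℕ, (b = 2 * m ∨ b = 2 * m + 1) ∧
      N * (2 * b + 1) ≤ ∑ i, w i + N ∧ ∑ i, w i ≤ N * (2 * b + 1) + N := by
    rcases le_or_gt (∑ i, w i) (4 * N * m + 2 * N) with h | h
    · exact ⟨2 * m, Or.inl rfl, by nlinarith, by nlinarith⟩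
    · exact ⟨2 * m + 1, Or.inr rfl, by nlinarith, by nlinarith⟩
  obtain ⟨δ, hδ⟩ : ∃ δ : ℤ, δ = ((∑ i, w i : ℕ) : ℤ) - ((N * (2 * b + 1) : ℕ) : ℤ) := ⟨_, rfl⟩
  have hδR : (δ : ℝ) = ((∑ i, w i : ℕ) : ℝ) - N * (2 * b + 1) := by
    rw [hδ]
    push_cast
    ring
  obtain ⟨x0, x1, x2, hx, hx', hsg⟩ := sgn_all (N := N) (b := b) (d := d) (δ := δ) hN (by omega)
    (by rw [abs_le]; omega) (by
      have e : 4 * (N : ℝ) * ((b + 1 : ℕ) : ℝ) + 2 * N + 2 * (δ : ℝ) =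
          4 * N + 2 * ((∑ i, w i : ℕ) : ℝ) := by
        rw [hδR]
        push_cast
        ring
      rw [e]
      exact hcrit)
  exact Sgn_of_ms (ms_V hw hb hx (by omega)) hsg

end Pool.Agent.TH2.NU
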