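import Pool.Agent.H15.G.R_seed8.TH763.DB.Sel
import Pool.Agent.H15.G.R_seed8.TH763.DB.Defs
import Pool.Agent.H15.G.R_seed8.TH641.UM.MS

/-! Independence is inherited by smaller multiplicities; multisets. -/

namespace Pool.Agent.TH2.NU

open Finset Pool.Agent.TH176.Nag Pool.Agent.TH603.Sur Pool.Agent.TH763.DB Module Pool.Agent.TH641.UM

/-- the exponents of total degree in `[v, w)` -/
def FF (v w : ℕ) : Finset (ℕ × ℕ) := (Ico v w).biUnion antidiagonal

theorem mem_FF {v w : ℕ} {p : ℕ × ℕ} : p ∈ FF v w ↔ v ≤ p.1 + p.2 ∧ p.1 + p.2 < w := by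
  unfold FF
  rw [mem_biUnion]
  constructor
  · rintro ⟨t, ht, hp⟩
    rw [HasAntidiagonal.mem_antidiagonal] at hp
    rw [mem_Ico] at ht
    omega
  · intro h
    exact ⟨p.1 + p.2, mem_Ico.2 h, HasAntidiagonal.mem_antidiagonal.2 rfl⟩

theorem card_FF {v w : ℕ} (h : v ≤ w) : (FF v w).card + (v + 1).choose 2 = (w + 1).choose 2 := by
  have h1 : ∀ w, (FF v w).card = ∑ t ∈ Ico v w, (t + 1) := by
    intro w
    unfold FF
    rw [card_biUnion]
    · exact sum_congr rfl fun t _ => Finset.Nat.card_antidiagonal t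
    · intro a _ b _ hab
      rw [Function.onFun, disjoint_left]
      intro p hp hp'
      rw [HasAntidiagonal.mem_antidiagonal] at hp hp'
      exact hab (hp.symm.trans hp')
  induction w, h using Nat.le_induction with
  | base => rw [h1]; simp
  | succ w hw ih =>
    rw [h1] at ih ⊢
    rw [Finset.sum_Ico_succ_top hw]
    have h2 : (w + 1 + 1).choose 2 = (w + 1) + (w + 1).choose 2 := by
      rw [Nat.choose_succ_succ' (w + 1) 1, Nat.choose_one_right]
    omega

/-- independence for smaller multiplicities -/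
theorem Sur_anti {ι : Type} [Fintype ι] {v w : ι → ℕ} (hvw : ∀ i, v i ≤ w i) {S : Set (ℤ × ℤ)}
    (h : Sur w S) : Sur v S := by
  classical
  obtain ⟨T, hT, hTc, K, _, _, x, y, hx, hy, hf⟩ := h
  let φ : ((ℤ × ℤ) →₀ K) →ₗ[K] ((Σ i : ι, {p : ℕ × ℕ // p ∈ FF (v i) (w i)}) → K) :=
    { toFun := fun f j => pr f (x j.1) (y j.1) (fun u => u.1 ^ (j.2 : ℕ × ℕ).1 * u.2 ^ (j.2 : ℕ × ℕ).2)
      map_add' := by
        intro f g
        funext a
        exact pr_add_left' _ _ _ _ _
      map_smul' := by
        intro c f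
        funext a
        exact pr_smul_left _ _ _ _ _ }
  have hinj : Sys T x y v ⊓ LinearMap.ker φ = ⊥ := by
    rw [eq_bot_iff]
    rintro f ⟨⟨hf1, hf2⟩, hf3⟩
    rw [Submodule.mem_bot]
    apply hf f
    · have := (Finsupp.mem_supported K f).1 hf1
      exact this
    · intro i
      apply LM_of_mono
      intro a c hac
      rw [SetLike.mem_coe, Submodule.mem_iInf] at hf2
      by_cases hv : a + c < v i
      · exact (mem_Mul.1 (hf2 i)) _ (mem_PF_mono hv)
      · rw [SetLike.mem_coe, LinearMap.mem_ker] at hf3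
        exact congrFun hf3 ⟨i, ⟨(a, c), mem_FF.2 ⟨by simp only; omega, hac⟩⟩⟩
  have hfd : FiniteDimensional K ↥(Finsupp.supported K K (↑T : Set (ℤ × ℤ))) := by
    rw [Finsupp.supported_eq_span_single]
    exact FiniteDimensional.span_of_finite K ((T.finite_toSet).image _)
  have hfd' : FiniteDimensional K ↥(Sys T x y v) := Submodule.finiteDimensional_of_le inf_le_left
  have hle : finrank K ↥(Sys T x y v) ≤ Fintype.card (Σ i : ι, {p : ℕ × ℕ // p ∈ FF (v i) (w i)}) := by
    have h1 := LinearMap.finrank_le_finrank_of_injective (f := φ.domRestrict (Sys T x y v)) (by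
      rw [injective_iff_map_eq_zero]
      intro g hg
      have h2 : (g : (ℤ × ℤ) →₀ K) ∈ Sys T x y v ⊓ LinearMap.ker φ := ⟨g.2, by
        rw [SetLike.mem_coe, LinearMap.mem_ker]; exact hg⟩
      rw [hinj] at h2
      exact Subtype.ext ((Submodule.mem_bot K).1 h2))
    rwa [Module.finrank_fintype_fun_eq_card] at h1
  have hcard : Fintype.card (Σ i : ι, {p : ℕ × ℕ // p ∈ FF (v i) (w i)}) + cond v = cond w := by
    rw [Fintype.card_sigma]
    unfold Pool.Agent.TH603.Sur.cond
    rw [← sum_add_distrib]
    refine sum_congr rfl fun i _ => ?_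
    rw [Fintype.card_coe]
    exact card_FF (hvw i)
  obtain ⟨T', hT'T, hT'c, hT'⟩ := exists_sub T (⨅ i, Mul (x i) (y i) (v i)) hle (by omega)
  refine ⟨T', (by exact_mod_cast hT'T : (↑T' : Set (ℤ × ℤ)) ⊆ ↑T).trans hT, by omega, K, inferInstance,
    inferInstance, x, y, hx, hy, ?_⟩
  intro f hf1 hf2
  have h3 : f ∈ Finsupp.supported K K (↑T' : Set (ℤ × ℤ)) ⊓ ⨅ i, Mul (x i) (y i) (v i) := by
    refine ⟨(Finsupp.mem_supported K f).2 hf1, ?_⟩
    rw [SetLike.mem_coe, Submodule.mem_iInf]
    exact hf2
  rw [hT'] at h3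
  exact (Submodule.mem_bot K).1 h3

theorem cond_ms {ι : Type} [Fintype ι] (w : ι → ℕ) :
    cond w = ((ms w).map fun a => (a + 1).choose 2).sum := by
  unfold Pool.Agent.TH603.Sur.cond ms
  have : ∀ s : Finset ι, ((∑ i ∈ s, ({w i} : Multiset ℕ)).map fun a => (a + 1).choose 2).sum =
      ∑ i ∈ s, (w i + 1).choose 2 := by
    classical
    intro s
    induction s using Finset.induction_on with
    | empty => simp
    | insert a s ha ih => rw [sum_insert ha, sum_insert ha, Multiset.map_add, Multiset.sum_add, ih]; simp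
  exact (this univ).symm

theorem cond_of_ms {ι κ : Type} [Fintype ι] [Fintype κ] {w : ι → ℕ} {v : κ → ℕ} (h : ms w = ms v) :
    cond w = cond v := by rw [cond_ms, cond_ms, h]

theorem Sur_of_ms {ι κ : Type} [Fintype ι] [Fintype κ] {w : ι → ℕ} {v : κ → ℕ} {S : Set (ℤ × ℤ)}
    (h : ms w = ms v) (hS : Sur w S) : Sur v S := by
  obtain ⟨T, h1, h2, h3⟩ := hS
  exact ⟨T, h1, h2.trans (cond_of_ms h), Emp_of_ms h.le h3⟩

theorem ms_card {ι : Type} [Fintype ι] (w : ι → ℕ) : (ms w).card = Fintype.card ι := by
  unfold ms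
  have : ∀ s : Finset ι, (∑ i ∈ s, ({w i} : Multiset ℕ)).card = s.card := by
    classical
    intro s
    induction s using Finset.induction_on with
    | empty => simp
    | insert a s ha ih => rw [sum_insert ha, card_insert_of_notMem ha, Multiset.card_add, ih]; simp [add_comm]
  exact (this univ).trans card_univ

theorem ms_sum_val {ι : Type} [Fintype ι] (w : ι → ℕ) : (ms w).sum = ∑ i, w i := by
  unfold ms
  have : ∀ s : Finset ι, (∑ i ∈ s, ({w i} : Multiset ℕ)).sum = ∑ i ∈ s, w i := by
    classical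
    intro s
    induction s using Finset.induction_on with
    | empty => simp
    | insert a s ha ih => rw [sum_insert ha, sum_insert ha, Multiset.sum_add, ih]; simp
  exact this univ

/-- two families with values in `{m, m + 1}`, the same number of members and the same sum -/
theorem ms_eq {ι κ : Type} [Fintype ι] [Fintype κ] {w : ι → ℕ} {v : κ → ℕ} {m : ℕ}
    (hw : ∀ i, w i = m ∨ w i = m + 1) (hv : ∀ i, v i = m ∨ v i = m + 1)
    (hc : Fintype.card ι = Fintype.card κ) (hs : ∑ i, w i = ∑ i, v i) : ms w = ms v := by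
  classical
  have key : ∀ {ι : Type} [Fintype ι] {w : ι → ℕ}, (∀ i, w i = m ∨ w i = m + 1) →
      ms w = (Fintype.card ι - (∑ i, w i - m * Fintype.card ι)) • {m} +
        (∑ i, w i - m * Fintype.card ι) • {m + 1} := by
    intro ι _ w hw
    obtain ⟨e, he⟩ : ∃ e : ℕ, e = (univ.filter fun i => w i = m + 1).card := ⟨_, rfl⟩
    have h1 : ∑ i, w i = m * Fintype.card ι + e := by
      have h2 : ∀ i, w i = m + if w i = m + 1 then 1 else 0 := by
        intro i
        rcases hw i with h | h
        · rw [if_neg (by omega), h, add_zero]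
        · rw [if_pos h, h]
      rw [sum_congr rfl fun i _ => h2 i, sum_add_distrib, sum_const, card_univ, smul_eq_mul, mul_comm,
        he, card_filter]
    have hle : e ≤ Fintype.card ι := by rw [he]; exact card_filter_le _ _
    rw [h1, Nat.add_sub_cancel_left]
    have h3 : ∀ s : Finset ι, ∑ i ∈ s, ({w i} : Multiset ℕ) =
        (s.filter fun i => ¬ w i = m + 1).card • {m} + (s.filter fun i => w i = m + 1).card • {m + 1} := by
      intro s
      induction s using Finset.induction_on with
      | empty => simp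
      | insert a s ha ih =>
        rw [sum_insert ha, ih, filter_insert, filter_insert]
        by_cases h : w a = m + 1
        · rw [if_neg (not_not.2 h), if_pos h, card_insert_of_notMem (by simp [ha]), add_smul, one_smul, h]
          abel
        · rw [if_pos h, if_neg h, card_insert_of_notMem (by simp [ha]), add_smul, one_smul,
            (hw a).resolve_right h]
          abel
    unfold ms
    rw [h3 univ, ← he]
    congr 2
    have h4 := card_filter_add_card_filter_not (s := (univ : Finset ι)) (fun i => w i = m + 1)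
    rw [card_univ] at h4
    omega
  rw [key hw, key hv, hc, hs]

end Pool.Agent.TH2.NU
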