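import Pool.Agent.H15.G.R_seed8.TH2.NU.Main
import Pool.Agent.H15.G.R_seed8.TH941.NU.Asm
import Pool.Agent.H15.G.R_seed8.TH552.BB.TrGen

/-! Doubling, unconditional. -/

namespace Pool.Agent.TH2.NU

open Finset Pool.Agent.TH176.Nag Pool.Agent.TH603.Sur Pool.Agent.TH763.DB Module

theorem cluHypB : CluHypB := by
  intro N b I hI κ _ e hN S hpos c0 h1 h2
  exact Pool.Agent.TH941.NU.exists_cluB_of
    (fun x y b I hI _ _ A hA => Pool.Agent.TH552.BB.Gen.trans_gen x y b I hI A hA) hI hN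
    (exists_confB hN hpos h1 h2)

theorem doublingB {N b : ℕ} {κ : Type} [Fintype κ] {e : κ → ℕ} (hN : 0 < N)
    {S : Finset (ℤ × ℤ)} (hpos : ∀ u ∈ S, 0 ≤ u.1 ∧ 0 ≤ u.2)
    (h1 : Sur (Sum.elim (fun _ : Fin N => b) e) (↑S : Set (ℤ × ℤ)))
    (h2 : Emp (Sum.elim (fun _ : Fin N => b + 1) e) (↑S : Set (ℤ × ℤ))) :
    (S.card ≤ cond (Sum.elim (fun p : Fin N × (Fin 2 × Fin 2) => qv b p.2) e) →
      Emp (Sum.elim (fun p : Fin N × (Fin 2 × Fin 2) => qv b p.2) e) (↑S : Set (ℤ × ℤ))) ∧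
    (cond (Sum.elim (fun p : Fin N × (Fin 2 × Fin 2) => qv b p.2) e) ≤ S.card →
      Sur (Sum.elim (fun p : Fin N × (Fin 2 × Fin 2) => qv b p.2) e) (↑S : Set (ℤ × ℤ))) :=
  doublingB_of cluHypB hN hpos h1 h2

end Pool.Agent.TH2.NU
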