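import Pool.Agent.H15.G.R_seed8.TH763.DB.Defs

/-! Near-uniform vectors: definitions (doubling with general base multiplicity `b` and general
exponent set `I`). -/

namespace Pool.Agent.TH2.NU

open Finset Pool.Agent.TH176.Nag Pool.Agent.TH603.Sur Pool.Agent.TH763.DB

section
variable {K : Type} [Field K]

/-- the conditions with exponents in `I` on the terms of degree `b` at `(x, y)` -/
noncomputable def OdI (x y : K) (D E : K × K) (b : ℕ) (I : Finset ℕ) :
    Submodule K ((ℤ × ℤ) →₀ K) :=
  ⨅ (k : ℕ) (_ : k ∈ I), Ker x y (qq D E k (b - k))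

/-- all terms of degree `b` vanish at `(x, y)` -/
noncomputable def TopB (x y : K) (b : ℕ) : Submodule K ((ℤ × ℤ) →₀ K) :=
  ⨅ (a : ℕ) (c : ℕ) (_ : a + c = b), Ker x y (fun u => u.1 ^ a * u.2 ^ c)

/-- the cluster conditions: multiplicity `b` and the conditions of `I` in degree `b` -/
noncomputable def CluB (x y : K) (D E : K × K) (b : ℕ) (I : Finset ℕ) :
    Submodule K ((ℤ × ℤ) →₀ K) :=
  Mul x y b ⊓ OdI x y D E b I

end

end Pool.Agent.TH2.NU
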