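import Pool.Agent.H15.G.R_seed8.TH2.NU.Dbl
import Pool.Agent.H15.G.R_seed8.TH2.NU.Anti

/-! Doubling and exact clusters for multisets of multiplicities. -/

namespace Pool.Agent.TH2.NU

open Finset Pool.Agent.TH176.Nag Pool.Agent.TH603.Sur Pool.Agent.TH763.DB Module Pool.Agent.TH641.UM

/-- the number of conditions of a multiset of multiplicities -/
def condM (M : Multiset ℕ) : ℕ := (M.map fun a => (a + 1).choose 2).sum

/-- independence for a multiset of multiplicities -/
def SurM (M : Multiset ℕ) (S : Set (ℤ × ℤ)) : Prop :=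
  Sur (fun i : Fin M.toList.length => M.toList.get i) S

theorem cond_condM {ι : Type} [Fintype ι] (w : ι → ℕ) : cond w = condM (ms w) := cond_ms w

theorem condM_add (M M' : Multiset ℕ) : condM (M + M') = condM M + condM M' := by
  unfold condM
  rw [Multiset.map_add, Multiset.sum_add]

theorem condM_smul (a : ℕ) (M : Multiset ℕ) : condM (a • M) = a * condM M := by
  unfold condM
  rw [Multiset.map_nsmul, Multiset.sum_nsmul, smul_eq_mul]

theorem condM_single (b : ℕ) : condM ({b} : Multiset ℕ) = (b + 1).choose 2 := by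
  unfold condM
  simp

theorem SurM_ms {ι : Type} [Fintype ι] (w : ι → ℕ) (S : Set (ℤ × ℤ)) : SurM (ms w) S ↔ Sur w S := by
  constructor
  · exact Sur_of_ms (exists_fam (ms w))
  · exact Sur_of_ms (exists_fam (ms w)).symm

theorem SurM_iff {ι : Type} [Fintype ι] {w : ι → ℕ} {M : Multiset ℕ} (h : ms w = M) (S : Set (ℤ × ℤ)) :
    SurM M S ↔ Sur w S := by rw [← h]; exact SurM_ms w S

/-- the multisets of the two kinds of clusters -/
def q4 (b : ℕ) : Multiset ℕ := ms (qv b)
/-- the multiset of an exact cluster -/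
def r4 (b : ℕ) : Multiset ℕ := ms (rv b)

theorem condM_q4 (b : ℕ) : condM (q4 b) = (b + 1).choose 2 + (b + 1) / 2 := by
  unfold q4
  rw [← cond_condM]
  exact sum_qv b

theorem condM_r4 {b : ℕ} (hb : 1 ≤ b) : condM (r4 b) = (b + 1).choose 2 := by
  unfold r4
  rw [← cond_condM]
  exact sum_rv hb

theorem ms_prod {a : ℕ} (v : Fin 2 × Fin 2 → ℕ) :
    ms (fun p : Fin a × (Fin 2 × Fin 2) => v p.2) = a • ms v := by
  unfold ms
  rw [Fintype.sum_prod_type]
  simp

theorem ms_toList (M : Multiset ℕ) : ms (fun i : Fin M.toList.length => M.toList.get i) = M :=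
  exists_fam M

/-- exact clusters -/
theorem exM {a b : ℕ} (hb : 1 ≤ b) {M : Multiset ℕ} {S : Finset (ℤ × ℤ)}
    (h : EmpM (a • {b} + M) (↑S : Set (ℤ × ℤ))) : EmpM (a • r4 b + M) (↑S : Set (ℤ × ℤ)) := by
  have h1 := (EmpM_iff (w := Sum.elim (fun _ : Fin a => b) fun i : Fin M.toList.length => M.toList.get i)
    (by rw [ms_sum, ms_fin, ms_toList]) _).1 h
  exact (EmpM_iff (by rw [ms_sum, ms_prod, ms_toList]; rfl) _).2 (exactB hb h1)

theorem exMS {a b : ℕ} (hb : 1 ≤ b) {M : Multiset ℕ} {S : Set (ℤ × ℤ)}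
    (h : SurM (a • {b} + M) S) : SurM (a • r4 b + M) S := by
  have h1 := (SurM_iff (w := Sum.elim (fun _ : Fin a => b) fun i : Fin M.toList.length => M.toList.get i)
    (by rw [ms_sum, ms_fin, ms_toList]) _).1 h
  exact (SurM_iff (by rw [ms_sum, ms_prod, ms_toList]; rfl) _).2 (exactB_Sur hb h1)

/-- doubling -/
theorem dblM {a b : ℕ} (ha : 0 < a) {M : Multiset ℕ} {S : Finset (ℤ × ℤ)}
    (hpos : ∀ u ∈ S, 0 ≤ u.1 ∧ 0 ≤ u.2)
    (h1 : SurM (a • {b} + M) (↑S : Set (ℤ × ℤ))) (h2 : EmpM (a • {b + 1} + M) (↑S : Set (ℤ × ℤ))) :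
    (S.card ≤ condM (a • q4 b + M) → EmpM (a • q4 b + M) (↑S : Set (ℤ × ℤ))) ∧
    (condM (a • q4 b + M) ≤ S.card → SurM (a • q4 b + M) (↑S : Set (ℤ × ℤ))) := by
  have h1' := (SurM_iff (w := Sum.elim (fun _ : Fin a => b) fun i : Fin M.toList.length => M.toList.get i)
    (by rw [ms_sum, ms_fin, ms_toList]) _).1 h1
  have h2' := (EmpM_iff (w := Sum.elim (fun _ : Fin a => b + 1) fun i : Fin M.toList.length => M.toList.get i)
    (by rw [ms_sum, ms_fin, ms_toList]) _).1 h2
  have e : ms (Sum.elim (fun p : Fin a × (Fin 2 × Fin 2) => qv b p.2)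
      fun i : Fin M.toList.length => M.toList.get i) = a • q4 b + M := by
    rw [ms_sum, ms_prod, ms_toList]; rfl
  have h3 := doublingB ha hpos h1' h2'
  rw [cond_condM, e] at h3
  exact ⟨fun h => (EmpM_iff e _).2 (h3.1 h), fun h => (SurM_iff e _).2 (h3.2 h)⟩

/-- raising multiplicities keeps emptiness -/
theorem EmpM.raise {a b b' : ℕ} (hb : b ≤ b') {M : Multiset ℕ} {S : Set (ℤ × ℤ)}
    (h : EmpM (a • {b} + M) S) : EmpM (a • {b'} + M) S := by
  have h1 := (EmpM_iff (w := Sum.elim (fun _ : Fin a => b) fun i : Fin M.toList.length => M.toList.get i)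
    (by rw [ms_sum, ms_fin, ms_toList]) _).1 h
  refine (EmpM_iff (w := Sum.elim (fun _ : Fin a => b') fun i : Fin M.toList.length => M.toList.get i)
    (by rw [ms_sum, ms_fin, ms_toList]) _).2 (Emp_emb id Function.injective_id ?_ h1)
  rintro (i | i)
  · exact hb
  · exact le_refl _

/-- lowering multiplicities keeps independence -/
theorem SurM.lower {a b b' : ℕ} (hb : b' ≤ b) {M : Multiset ℕ} {S : Set (ℤ × ℤ)}
    (h : SurM (a • {b} + M) S) : SurM (a • {b'} + M) S := by
  have h1 := (SurM_iff (w := Sum.elim (fun _ : Fin a => b) fun i : Fin M.toList.length => M.toList.get i)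
    (by rw [ms_sum, ms_fin, ms_toList]) _).1 h
  refine (SurM_iff (w := Sum.elim (fun _ : Fin a => b') fun i : Fin M.toList.length => M.toList.get i)
    (by rw [ms_sum, ms_fin, ms_toList]) _).2 (Sur_anti ?_ h1)
  rintro (i | i)
  · exact hb
  · exact le_refl _

end Pool.Agent.TH2.NU
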